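import Pool.Agent.Q314.ET.LP
import Pool.Agent.Q314.ET.Sim

/-!
# ET0L is properly included in the family of left permitting E0L languages
-/

set_option autoImplicit false

namespace Pool.Agent.Results.MP_ab0e6d_lc.ProperInclusion

open Pool.Agent.Q314.ET

/-- Every ET0L language is generated by a left permitting E0L grammar, and over a two-letter
alphabet some language is generated by a left permitting E0L grammar but by no ET0L grammar. -/
theorem result : (∀ (T : Type) (L : Set (List T)), IsET0L L → IsLPE0L L) ∧
    ∃ L : Set (List (Fin 2)), IsLPE0L L ∧ ¬ IsET0L L :=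
  ⟨fun _ _ h => Pool.Agent.Q314.ET.Sim.inclusion h, Pool.Agent.Q314.ET.LP.separation⟩

end Pool.Agent.Results.MP_ab0e6d_lc.ProperInclusion
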